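import Mathlib
import Pool.Agent.Lib.MP_bdc574_al.Defs
import Pool.Agent.Lib.MP_bdc574_al.Five

open Pool.Agent.Lib.MP_bdc574_al

theorem Pool.Agent.Results.MP_bdc574_al.FivePieces.result (G : Subgroup O4)
    (h1 : NoCoamenableFixedPoint G) :
    ∃ (A : Fin 5 → Set (EuclideanSpace ℝ (Fin 4))) (g : Fin 5 → O4),
      (∀ i, g i ∈ G ∧ A i ⊆ S3) ∧ Pairwise (fun i j => Disjoint (A i) (A j)) ∧
      S3 = g 0 '' A 0 ∪ g 1 '' A 1 ∧ S3 = g 2 '' A 2 ∪ g 3 '' A 3 ∪ g 4 '' A 4 :=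
  five G h1
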