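import Mathlib
import Pool.Agent.Lib.MP_bdc574_al.Defs
import Pool.Agent.Lib.MP_bdc574_al.Main

open Pool.Agent.Lib.MP_bdc574_al

theorem Pool.Agent.Results.MP_bdc574_al.FreeAction.result (G : Subgroup O4)
    (h1 : NoCoamenableFixedPoint G)
    (h2 : (∃ g ∈ G, ∃ z : ℂ, Eig g z ∧ Transcendental ℚ z) ∨
      ∃ g ∈ G, ∃ v : AbsoluteValue ℂ ℝ, ∀ z : ℂ, Eig g z → v z ≠ 1) :
    ∃ a b : O4, a ∈ G ∧ b ∈ G ∧ Function.Injective (FreeGroup.lift ![a, b]) ∧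
      ∀ g ∈ Subgroup.closure ({a, b} : Set O4), (∃ x ∈ S3, Fixes g x) → g = 1 :=
  main G h1 h2
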